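import Pool.Agent.H546.FE
import Pool.Agent.H546.Lin2

set_option autoImplicit false

/-!
# `∑ C(2k,k)² C(3k,k) / 1458^k` modulo `p²` (Q1)

The proof: the sum is the square of a Legendre polynomial modulo `p²` (Clausen); the elliptic curve
`y² = x³ + (6A-27)x + (A²-18A+54)`, `A = 2 - 10√3/9`, with complex multiplication by the order of discriminant `-48`, has
isogenies of degrees `4` and `3` to its conjugate; over the Witt vectors of an algebraic closure of `ZMod p` a
combination of these isogenies of degree `p` lifts the Frobenius, and comparing expansions modulo `p²` gives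
the value of the Legendre polynomial modulo `p²`. In the last case the Hasse invariant vanishes.
-/

open Finset

namespace Pool.Agent.Results.MP_d4325e_nt.FourteenFiftyEight

/-- the sum `S(p) = ∑_{k<p} C(2k,k)² C(3k,k) / 1458^k` -/
def S (p : ℕ) : ℚ := ∑ k ∈ range p, (((2 * k).choose k : ℚ) ^ 2 * ((3 * k).choose k : ℚ)) / 1458 ^ k

/-- congruence modulo `p²` of rational numbers: `(a - b) / p²` has denominator prime to `p` -/
def Cong (p : ℕ) (a b : ℚ) : Prop := p.Coprime ((a - b) / (p : ℚ) ^ 2).den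

open Pool.Agent.H546

theorem leg3 {p : ℕ} [hp : Fact p.Prime] (h3' : 3 < p) (hc3 : p % 3 = 1) :
    legendreSym p 3 = if p % 4 = 1 then 1 else -1 := by
  have hp2 : p ≠ 2 := by omega
  have h1 : legendreSym p (-3) = 1 := by rw [legm3 (by omega) (by omega), if_pos hc3]
  have h2 : legendreSym p (-3) = legendreSym p (-1) * legendreSym p 3 := by
    rw [← legendreSym.mul]; norm_num
  have h3 : legendreSym p (-1) = if p % 4 = 1 then 1 else -1 := by
    rw [legendreSym.at_neg_one hp2, ZMod.χ₄_nat_eq_if_mod_four]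
    have hodd : p % 2 = 1 := by
      rcases hp.out.eq_two_or_odd with h | h
      · omega
      · exact h
    rw [if_neg (by omega)]
  rw [h1, h3] at h2
  split_ifs at h2 ⊢ with h
  · linarith
  · linarith

theorem s7 : S 7 = 22425158873817755 / 22236242266222092 := by
  norm_num [S, sum_range_succ, Nat.choose]

theorem s13 : S 13 = 161563010063546711510733547518279025 / 160201952319567462484196607109494336 := by
  norm_num [S, sum_range_succ, Nat.choose]

/-- the value of the sum, for the primes larger than `13` and for the primes which are two modulo three -/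
theorem main (p : ℕ) [hp : Fact p.Prime] (h3 : 3 < p) :
    (∀ x y : ℤ, 13 < p → p % 3 = 1 → legendreSym p 3 = 1 → (p : ℤ) = x ^ 2 + 12 * y ^ 2 →
      Cong p (S p) ((4 * x ^ 2 - 2 * p : ℤ) : ℚ)) ∧
    (∀ x y : ℤ, 13 < p → p % 3 = 1 → legendreSym p 3 = -1 → (p : ℤ) = 4 * x ^ 2 + 3 * y ^ 2 →
      Cong p (S p) ((16 * x ^ 2 - 2 * p : ℤ) : ℚ)) ∧
    (p % 3 = 2 → Cong p (S p) ((0 : ℤ) : ℚ)) := by
  have hM : ¬ (p : ℤ) ∣ 1458 := by
    have := ndvd_of_primes p (n := 1458) (l := [2, 3, 3, 3, 3, 3, 3]) (by simp; norm_num)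
      (by norm_num) (by simp; omega)
    exact_mod_cast this
  have n3 : ¬ (p : ℤ) ∣ 3 := by
    have := ndvd_of_primes p (n := 3) (l := [3]) (by simp; norm_num) (by norm_num) (by simp; omega)
    exact_mod_cast this
  have n18 : ¬ (p : ℤ) ∣ 18 := by
    have := ndvd_of_primes p (n := 18) (l := [2, 3, 3]) (by simp; norm_num) (by norm_num) (by simp; omega)
    exact_mod_cast this
  obtain ⟨wi, hwi⟩ := inv_exists hM
  have tr : ∀ E : ℤ, ∑ k ∈ range p, (k.centralBinom : ZMod (p ^ 2)) *
      ((Pool.Agent.Q267.MW.u3 k : ℕ) : ZMod (p ^ 2)) * wi ^ k = ((E : ℤ) : ZMod (p ^ 2)) →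
      Cong p (S p) (E : ℚ) := by
    intro E hE
    have h := tr3 hM hwi E hE
    have e : (((1458 : ℤ)) : ℚ) = 1458 := by norm_num
    rw [e] at h
    exact h
  obtain ⟨σ, hσ⟩ := wo_isqrt p (by omega) n3
  obtain ⟨v, i6, ρ, iv, hv, h6, hρ, hiv⟩ := wo_data p (by omega) (by omega)
  have r18 : (SW p).red 18 ≠ 0 := by
    have := (SW p).int_ne (p := p) n18
    exact_mod_cast this
  obtain ⟨w, hw⟩ := ((SW p).unit_of_red r18).exists_right_inv
  obtain ⟨m1, m2, m3⟩ := fe_main (SW p) (SW_q p) h3 (σ := σ) (ρ := ρ) (z := w * (9 - 5 * σ)) (by exact_mod_cast hσ) hρ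
    (by linear_combination (9 - 5 * σ) * hw) hwi
  exact ⟨fun x y a b c d => tr _ (m1 x y a b c d), fun x y a b c d => tr _ (m2 x y a b c d),
    fun a => tr 0 (by rw [m3 a]; push_cast; rfl)⟩

/-- **The full answer to Q1.** -/
theorem result (p : ℕ) (hp : p.Prime) (h3 : 3 < p) :
    (p % 3 = 1 → ∀ x y : ℤ, (p : ℤ) = x ^ 2 + 3 * y ^ 2 → Cong p (S p) (4 * x ^ 2 - 2 * p)) ∧
    (p % 3 = 2 → Cong p (S p) 0) := by
  have : Fact p.Prime := ⟨hp⟩
  obtain ⟨m1, m2, m3⟩ := main p h3
  refine ⟨fun hc3 x y hxy => ?_, fun hc3 => by exact_mod_cast m3 hc3⟩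
  have hodd : p % 2 = 1 := by
    rcases hp.eq_two_or_odd with h | h
    · omega
    · exact h
  by_cases h13 : 13 < p
  · have hx4 : x ^ 2 % 4 = 0 ∧ x % 2 = 0 ∨ x ^ 2 % 4 = 1 ∧ x % 2 = 1 := by
      have h : x % 4 = 0 ∨ x % 4 = 1 ∨ x % 4 = 2 ∨ x % 4 = 3 := by omega
      rcases h with h | h | h | h
      · left; refine ⟨?_, by omega⟩; rw [pow_two, Int.mul_emod, h]; norm_num
      · right; refine ⟨?_, by omega⟩; rw [pow_two, Int.mul_emod, h]; norm_num
      · left; refine ⟨?_, by omega⟩; rw [pow_two, Int.mul_emod, h]; norm_num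
      · right; refine ⟨?_, by omega⟩; rw [pow_two, Int.mul_emod, h]; norm_num
    have hy4 : y ^ 2 % 4 = 0 ∧ y % 2 = 0 ∨ y ^ 2 % 4 = 1 ∧ y % 2 = 1 := by
      have h : y % 4 = 0 ∨ y % 4 = 1 ∨ y % 4 = 2 ∨ y % 4 = 3 := by omega
      rcases h with h | h | h | h
      · left; refine ⟨?_, by omega⟩; rw [pow_two, Int.mul_emod, h]; norm_num
      · right; refine ⟨?_, by omega⟩; rw [pow_two, Int.mul_emod, h]; norm_num
      · left; refine ⟨?_, by omega⟩; rw [pow_two, Int.mul_emod, h]; norm_num
      · right; refine ⟨?_, by omega⟩; rw [pow_two, Int.mul_emod, h]; norm_num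
    rcases hx4 with ⟨hx4, hx⟩ | ⟨hx4, hx⟩
    · obtain ⟨a, rfl⟩ : ∃ a, x = 2 * a := ⟨x / 2, by omega⟩
      have hp4 : ¬ p % 4 = 1 := by omega
      have hl : legendreSym p 3 = -1 := by rw [leg3 h3 hc3, if_neg hp4]
      have := m2 a y h13 hc3 hl (by rw [hxy]; ring)
      convert this using 1
      push_cast; ring
    · have hy : y % 2 = 0 := by omega
      obtain ⟨b, rfl⟩ : ∃ b, y = 2 * b := ⟨y / 2, by omega⟩
      have hp4 : p % 4 = 1 := by omega
      have hl : legendreSym p 3 = 1 := by rw [leg3 h3 hc3, if_pos hp4]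
      have := m1 x b h13 hc3 hl (by rw [hxy]; ring)
      convert this using 1
      push_cast; ring
  · have h4 : p ≠ 4 := by rintro rfl; exact absurd hp (by norm_num)
    have h10 : p ≠ 10 := by rintro rfl; exact absurd hp (by norm_num)
    have hp' : p = 7 ∨ p = 13 := by omega
    have hx0 := sq_nonneg x
    have hy0 := sq_nonneg y
    rcases hp' with rfl | rfl
    · have hx2 : x ^ 2 = 4 := by
        have h1 : y ^ 2 ≤ 2 := by push_cast at hxy; omega
        have hy1 : y < 2 := by nlinarith
        have hy2 : -2 < y := by nlinarith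
        have hy3 : y ^ 2 ≠ 0 := by
          intro h; rw [h] at hxy; push_cast at hxy
          have h3 : x < 3 := by nlinarith
          have h4 : -3 < x := by nlinarith
          interval_cases x <;> omega
        have hy4 : y ^ 2 ≠ 2 := by
          intro h; interval_cases y <;> omega
        push_cast at hxy
        omega
      have hxq : (x : ℚ) ^ 2 = 4 := by exact_mod_cast hx2
      rw [hxq]
      refine cop_of_eq (n := -449945421604621) (d := 22236242266222092) ?_ (by norm_num)
      rw [s7]; norm_num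
    · have hx2 : x ^ 2 = 1 := by
        have h1 : y ^ 2 ≤ 4 := by push_cast at hxy; omega
        have hy1 : y < 3 := by nlinarith
        have hy2 : -3 < y := by nlinarith
        push_cast at hxy
        have hx9 : x ^ 2 ≤ 13 := by omega
        have h3 : x < 4 := by nlinarith
        have h4 : -4 < x := by nlinarith
        interval_cases x <;> interval_cases y <;> omega
      have hxq : (x : ℚ) ^ 2 = 1 := by exact_mod_cast hx2
      rw [hxq]
      refine cop_of_eq (n := 21810686160319709385580230200752393) (d := 160201952319567462484196607109494336) ?_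
        (by norm_num)
      rw [s13]; norm_num

end Pool.Agent.Results.MP_d4325e_nt.FourteenFiftyEight
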